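import Pool.Agent.H88.B2.Targets

set_option autoImplicit false

namespace Pool.Agent.H53.B2.RD4

open MeasureTheory Set
open Pool.Agent.H83.G Pool.Agent.H88.B2
open scoped ENNReal NNReal RealInnerProductSpace

theorem al_mono (hWT1 : T_WT1) {N M : ℕ} (hNM : N ≤ M) (β : E 2 → ℂ) (R δ : ℝ) (G : Z 2 → ℂ)
    (W : Pk 2) (hfin : al2 N β R δ G W ≠ ⊤) : al M β R δ G W ≤ al N β R δ G W := by
  unfold al
  apply Real.sqrt_le_sqrt
  apply ENNReal.toReal_mono hfin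
  unfold al2
  apply mul_le_mul_right
  apply lintegral_mono
  intro z
  apply mul_le_mul_right
  apply ENNReal.ofReal_le_ofReal
  exact (hWT1 2 N).2.2.2.2.1 _ M hNM

theorem pf_RD4 (hRDP : T_RDP) (hTLS : T_TLS) (hWWE : T_WWE) (hWT1 : T_WT1) (hAMU : T_AMU) :
    T_RD4 := by
  classical
  intro L β Ψ ψ δ hβ hΨ hδ0 hδ1 N hN
  have hδ4 : δ ≤ 1 / 4 := hδ1.trans (by norm_num)
  obtain ⟨CR, hCR, hR⟩ := hRDP 2 (2 * N) β Ψ ψ δ (4 - δ) (by norm_num) hβ hΨ hδ0 hδ4 (by omega)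
    (by linarith) (by push_cast; linarith)
  obtain ⟨CT, hCT, hT⟩ := hTLS 2 L N β Ψ ψ δ 1 hβ hΨ hδ0 hδ4 (by omega)
  obtain ⟨CA, hCA, hA⟩ := hAMU 2 L N β δ hβ hδ0.le (by omega)
  have hmax : 1 ≤ max 1 CT := le_max_left _ _
  refine ⟨16 * CR * max 1 CT, by nlinarith, ?_⟩
  intro κ R A a H M₁ G S X hκ0 hκ1 hR1 hCRδ hA0 hCls ha hH hM1 hM2 hSep hS hX
  have hR0 : 0 < R := by linarith
  have hCle : CR ≤ R ^ δ := by
    refine le_trans ?_ hCRδ
    nlinarith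
  have hκ2 : κ ≤ 1 / 2 := hκ1.trans (by norm_num)
  have hM0 : 0 < M₁ := lt_of_lt_of_le (Real.rpow_pos_of_pos hR0 _) hM1
  rcases X.eq_empty_or_nonempty with hXe | ⟨z₀, hz₀⟩
  · subst hXe
    simp only [Finset.card_empty, Nat.cast_zero, zero_mul]
    positivity
  have hS2 : ∀ W ∈ S, W.1 ∈ Ks 2 (sR R) ∧ al (2 * N) β R δ G W ≤ 2 * a := by
    intro W hW
    refine ⟨(hS W hW).1, ?_⟩
    refine le_trans ?_ (hS W hW).2
    apply al_mono hWT1 (by omega)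
    rw [(hA κ R A G W hκ0 hκ2 hR1 hA0 hCls).2]
    exact ENNReal.ofReal_ne_top
  have hX2 : ∀ z ∈ X, H ≤ ‖∑ W ∈ S, Fp β ψ R δ G W z‖ ∧ MS (2 * N) R δ S z ≤ M₁ := by
    intro z hz
    refine ⟨(hX z hz).1, le_trans ?_ (hX z hz).2⟩
    unfold MS Nd
    apply Finset.sum_le_sum
    intro W _
    exact ((hWWE 2 N R δ W hR0).2.2.2.2 z).1
  have h1 := hR κ R (2 * a) H M₁ G S X hκ0 hκ1 hR1 hCle hCls.1 hCls.2.1 (by positivity) hH hM0 hSep
    hS2 hX2
  -- bound of `H`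
  have hHle : H ≤ CT * R ^ (4 : ℝ) * (2 * a) := by
    have e1 := (hT κ R A G S z₀ hκ0 hκ2 hR1 hA0 hCls (fun W hW => (hS W hW).1)).2 (2 * a)
      (by positivity) (fun W hW => (hS W hW).2)
    have e2 : ((2 : ℕ) : ℝ) + 2 = 4 := by norm_num
    rw [e2] at e1
    exact ((hX z₀ hz₀).1.trans (norm_sum_le _ _)).trans e1
  have ha2 : 0 < 2 * a := by positivity
  have hHδ : H ^ δ ≤ max 1 CT * R ^ (4 * δ) * (2 * a) ^ δ := by
    have e1 : H ^ δ ≤ (max 1 CT * R ^ (4 : ℝ) * (2 * a)) ^ δ := by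
      apply Real.rpow_le_rpow hH.le _ hδ0.le
      refine hHle.trans ?_
      apply mul_le_mul_of_nonneg_right _ ha2.le
      exact mul_le_mul_of_nonneg_right (le_max_right _ _) (by positivity)
    refine e1.trans ?_
    rw [Real.mul_rpow (by positivity) (by positivity), Real.mul_rpow (by positivity) (by positivity),
      ← Real.rpow_mul hR0.le]
    apply mul_le_mul_of_nonneg_right _ (by positivity)
    apply mul_le_mul_of_nonneg_right _ (by positivity)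
    calc (max 1 CT) ^ δ ≤ (max 1 CT) ^ (1 : ℝ) :=
          Real.rpow_le_rpow_of_exponent_le hmax (by linarith)
      _ = max 1 CT := Real.rpow_one _
  have hMδ : M₁ ^ ((4 - δ) / 2 - 1) ≤ M₁ * R ^ (5 * δ) := by
    have e1 : M₁ ^ ((4 - δ) / 2 - 1) = M₁ * M₁ ^ (-(δ / 2)) := by
      rw [← Real.rpow_one_add' hM0.le (by linarith)]
      congr 1
      ring
    rw [e1]
    apply mul_le_mul_of_nonneg_left _ hM0.le
    calc M₁ ^ (-(δ / 2)) ≤ (R ^ (-(10 : ℝ))) ^ (-(δ / 2)) :=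
          Real.rpow_le_rpow_of_nonpos (Real.rpow_pos_of_pos hR0 _) hM1 (by linarith)
      _ = R ^ (5 * δ) := by
          rw [← Real.rpow_mul hR0.le]
          congr 1
          ring
  have hsplit : H ^ (4 : ℕ) = H ^ (4 - δ) * H ^ δ := by
    rw [← Real.rpow_add hH, ← Real.rpow_natCast]
    congr 1
    push_cast
    ring
  have hasplit : (2 * a) ^ (4 - δ) * (2 * a) ^ δ = 16 * a ^ 4 := by
    rw [← Real.rpow_add ha2]
    have : (4 - δ + δ : ℝ) = ((4 : ℕ) : ℝ) := by push_cast; ring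
    rw [this, Real.rpow_natCast]
    ring
  have e2 : (((2 : ℕ) : ℝ) + 2) / 2 = ((2 : ℕ) : ℝ) := by norm_num
  rw [e2, Real.rpow_natCast] at h1
  have hlo : lo 2 = 400 := by unfold lo; norm_num
  rw [hlo] at h1 ⊢
  have hn : (0 : ℝ) ≤ (X.card : ℝ) := Nat.cast_nonneg _
  calc (X.card : ℝ) * H ^ 4 = (X.card : ℝ) * H ^ (4 - δ) * H ^ δ := by rw [hsplit]; ring
    _ ≤ (CR * R ^ (400 * δ) * M₁ ^ ((4 - δ) / 2 - 1) * (2 * a) ^ (4 - δ) * S.card * R ^ 2) *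
        (max 1 CT * R ^ (4 * δ) * (2 * a) ^ δ) := by
        apply mul_le_mul h1 hHδ (by positivity) (by positivity)
    _ ≤ (CR * R ^ (400 * δ) * (M₁ * R ^ (5 * δ)) * (2 * a) ^ (4 - δ) * S.card * R ^ 2) *
        (max 1 CT * R ^ (4 * δ) * (2 * a) ^ δ) := by
        gcongr
    _ = CR * max 1 CT * ((2 * a) ^ (4 - δ) * (2 * a) ^ δ) *
        (R ^ (400 * δ) * R ^ (5 * δ) * R ^ (4 * δ)) * M₁ * S.card * R ^ 2 := by ring
    _ = 16 * CR * max 1 CT * R ^ (409 * δ) * M₁ * a ^ 4 * S.card * R ^ 2 := by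
        rw [hasplit, ← Real.rpow_add hR0, ← Real.rpow_add hR0]
        have : 400 * δ + 5 * δ + 4 * δ = 409 * δ := by ring
        rw [this]
        ring
    _ ≤ 16 * CR * max 1 CT * R ^ (400 * (4 * δ)) * M₁ * a ^ 4 * S.card * R ^ 2 := by
        have e3 : R ^ (409 * δ) ≤ R ^ (400 * (4 * δ)) :=
          Real.rpow_le_rpow_of_exponent_le hR1 (by linarith)
        gcongr

end Pool.Agent.H53.B2.RD4
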